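import Pool.Agent.Work.MP_07f1b5_pr.Main

namespace Pool.Agent.Results.MP_07f1b5_pr.Decorrelation

open Pool.Agent.Work.MP_07f1b5_pr

/-- For every `ε > 0` there is `δ > 0` such that in Bernoulli bond percolation on any finite graph,
with any edge probabilities and any distinct vertices `a, b, c`:
`P(ab‖c) < δ` implies `P(abc) - P(ac) P(bc) < ε`. -/
theorem result : ∀ ε : ℝ, 0 < ε → ∃ δ : ℝ, 0 < δ ∧
    ∀ (V : Type) [Fintype V] [DecidableEq V] (G : SimpleGraph V) [DecidableRel G.Adj]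
      (p : Sym2 V → ℝ), (∀ e ∈ G.edgeFinset, 0 ≤ p e ∧ p e ≤ 1) →
      ∀ a b c : V, a ≠ b → a ≠ c → b ≠ c →
      percProb G p (fun ω => Conn ω a b ∧ ¬ Conn ω a c) < δ →
      percProb G p (fun ω => Conn ω a b ∧ Conn ω a c) -
        percProb G p (fun ω => Conn ω a c) * percProb G p (fun ω => Conn ω b c) < ε := by
  intro ε hε
  obtain ⟨δ, hδ, h⟩ := main ε hε
  exact ⟨δ, hδ, fun V _ _ G _ p hp a b c _ _ _ hd => h V G p hp a b c hd⟩

end Pool.Agent.Results.MP_07f1b5_pr.Decorrelation
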